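import Pool.Agent.P.MP_eef3c4_an.Seq

/-! No infinite-dimensional superreflexive space has the universal separable
`C(K)`-extension property. -/

namespace Pool.Agent.Results.MP_eef3c4_an.NoUniversal

/-- `X` is isomorphic to a uniformly convex space. -/
def Superreflexive (X : Type) [NormedAddCommGroup X] [NormedSpace ℝ X] : Prop :=
  ∃ (Z : Type) (_ : NormedAddCommGroup Z) (_ : NormedSpace ℝ Z),
    UniformConvexSpace Z ∧ Nonempty (X ≃L[ℝ] Z)

/-- Every infinite-dimensional separable superreflexive Banach space has an isometric copy `E` in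
`C[0,1]` and a bounded operator from `E` to some `C(K)` with no bounded extension to `C[0,1]`. -/
theorem result (X : Type) [NormedAddCommGroup X] [NormedSpace ℝ X] [CompleteSpace X]
    [TopologicalSpace.SeparableSpace X] (hX : ¬ FiniteDimensional ℝ X) (hs : Superreflexive X) :
    ∃ E : Submodule ℝ C(unitInterval, ℝ), IsClosed (E : Set C(unitInterval, ℝ)) ∧
      Nonempty (X ≃ₗᵢ[ℝ] E) ∧
      ∃ (K : Type) (_ : TopologicalSpace K) (_ : CompactSpace K) (_ : T2Space K)
        (T : E →L[ℝ] C(K, ℝ)),
        ¬ ∃ T' : C(unitInterval, ℝ) →L[ℝ] C(K, ℝ), ∀ x : E, T' x = T x := by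
  obtain ⟨Z, _, _, hZ, ⟨Φ⟩⟩ := hs
  obtain ⟨j, hj⟩ := Pool.Agent.P.MP_eef3c4_an.main hX Φ
  refine ⟨LinearMap.range j.toLinearMap, j.isometry.isClosedEmbedding.isClosed_range,
    ⟨j.equivRange⟩, Pool.Agent.P.MP_eef3c4_an.Ball X, inferInstance, inferInstance, inferInstance,
    (Pool.Agent.P.MP_eef3c4_an.canon X).comp
      j.equivRange.symm.toLinearIsometry.toContinuousLinearMap, ?_⟩
  rintro ⟨T', hT'⟩
  refine hj T' fun x s => ?_
  have h := hT' (j.equivRange x)
  have e : (j.equivRange.symm.toLinearIsometry.toContinuousLinearMap (j.equivRange x)) = x :=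
    j.equivRange.symm_apply_apply x
  rw [ContinuousLinearMap.comp_apply, e] at h
  exact congrArg (fun f => f s) h

end Pool.Agent.Results.MP_eef3c4_an.NoUniversal
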